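import Mathlib

/-!
# MP_acd7ab_co: maximum even-cycle-intersecting families of permutations

For every `n ≥ 5` there is an extremal even-cycle-intersecting family in `S_n` that is not a
double-translate of a Sylow 2-subgroup.
-/

set_option autoImplicit false

open Finset Equiv Equiv.Perm

namespace Pool.Agent.Results.MP_acd7ab_co.NotOnlyTranslates

/-- For all distinct `σ, π ∈ F`, the permutation `σ π⁻¹` has a cycle of even length.
(`cycleType` is the multiset of the lengths `≥ 2` of the cycles.) -/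
def EvenCycleIntersecting {n : ℕ} (F : Finset (Perm (Fin n))) : Prop :=
  ∀ σ ∈ F, ∀ π ∈ F, σ ≠ π → ∃ l ∈ (σ * π⁻¹).cycleType, Even l

/-- An even-cycle-intersecting family of maximum size. -/
def Extremal {n : ℕ} (F : Finset (Perm (Fin n))) : Prop :=
  EvenCycleIntersecting F ∧ ∀ G : Finset (Perm (Fin n)), EvenCycleIntersecting G → #G ≤ #F

variable {n : ℕ}

lemma exists_even_of_even_order (x : Perm (Fin n)) (h : Even (orderOf x)) :
    ∃ l ∈ x.cycleType, Even l := by
  by_contra hc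
  push Not at hc
  have h1 : x.cycleType.lcm ∣ x.cycleType.prod := Multiset.lcm_dvd.2 (fun b hb =>
    Multiset.dvd_prod hb)
  rw [lcm_cycleType] at h1
  have h2 : (2 : ℕ) ∣ x.cycleType.prod := h.two_dvd.trans h1
  obtain ⟨l, hl, h3⟩ := Nat.prime_two.prime.exists_mem_multiset_dvd h2
  exact hc l hl (even_iff_two_dvd.2 h3)

lemma even_order_of_sign (x : Perm (Fin n)) (h : sign x = -1) : Even (orderOf x) := by
  by_contra hc
  rw [Nat.not_even_iff_odd] at hc
  have h1 : sign (x ^ orderOf x) = 1 := by rw [pow_orderOf_eq_one, Perm.sign_one]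
  rw [map_pow, h, hc.neg_one_pow] at h1
  exact absurd h1 (by decide)

lemma even_order_of_mem (P : Sylow 2 (Perm (Fin n))) (x : Perm (Fin n)) (hx : x ∈ P)
    (h1 : x ≠ 1) : Even (orderOf x) := by
  obtain ⟨k, hk⟩ := (IsPGroup.iff_orderOf.1 P.isPGroup') ⟨x, hx⟩
  have hk' : orderOf x = 2 ^ k := by
    rw [← hk]
    exact (Subgroup.orderOf_mk x hx).symm
  rw [hk']
  rcases Nat.eq_zero_or_pos k with h | h
  · exfalso
    rw [h, pow_zero, orderOf_eq_one_iff] at hk'
    exact h1 hk'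
  · exact (Nat.even_pow.2 ⟨even_two, by omega⟩)

lemma exists_sylow (x : Perm (Fin n)) (hx : x ^ 2 = 1) : ∃ P : Sylow 2 (Perm (Fin n)), x ∈ P := by
  have h1 : IsPGroup 2 (Subgroup.zpowers x) := by
    intro g
    refine ⟨1, ?_⟩
    obtain ⟨y, hy⟩ := g
    obtain ⟨k, rfl⟩ := Subgroup.mem_zpowers_iff.1 hy
    apply Subtype.ext
    simp only [pow_one, Subgroup.coe_pow, Subgroup.coe_one]
    rw [← zpow_natCast, ← zpow_mul, mul_comm, zpow_mul, zpow_natCast, hx, one_zpow]
  obtain ⟨Q, hQ⟩ := h1.exists_le_sylow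
  exact ⟨Q, hQ (Subgroup.mem_zpowers x)⟩

/-- **For every `n ≥ 5` there is an extremal even-cycle-intersecting family in `S_n` that is not a
double-translate `σ P π` of any Sylow 2-subgroup `P` of `S_n`.** -/
theorem result (n : ℕ) (hn : 5 ≤ n) :
    ∃ F : Finset (Perm (Fin n)), Extremal F ∧
      ∀ (P : Sylow 2 (Perm (Fin n))) (σ π : Perm (Fin n)),
        (F : Set (Perm (Fin n))) ≠ {x | ∃ g ∈ P, x = σ * g * π} := by
  classical
  let i : Fin 5 → Fin n := fun j => ⟨j.1, by have := j.2; omega⟩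
  have hi : Function.Injective i := by
    intro j j' h
    have h' : (i j).1 = (i j').1 := congrArg Fin.val h
    exact Fin.ext h'
  have hne : ∀ j j' : Fin 5, j ≠ j' → i j ≠ i j' := fun j j' h h' => h (hi h')
  have hdis : ∀ j : Fin 5, 2 ≤ j.1 → j.1 ≠ 2 →
      Perm.Disjoint (swap (i 0) (i 1)) (swap (i 2) (i j)) := by
    intro j hj hj2
    rw [disjoint_iff_disjoint_support, support_swap (hne 0 1 (by decide)),
      support_swap (hne 2 j (by intro h; apply hj2; rw [← h]; rfl))]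
    rw [Finset.disjoint_left]
    intro x hx hx'
    simp only [mem_insert, mem_singleton] at hx hx'
    rcases hx with hx | hx <;> rcases hx' with hx' | hx' <;>
    · have := hi (hx.symm.trans hx')
      rw [Fin.ext_iff] at this
      revert this
      simp
      try omega
  obtain ⟨a, ha⟩ : ∃ a : Perm (Fin n), a = swap (i 0) (i 1) * swap (i 2) (i 3) := ⟨_, rfl⟩
  obtain ⟨b, hb⟩ : ∃ b : Perm (Fin n), b = swap (i 0) (i 1) * swap (i 2) (i 4) := ⟨_, rfl⟩
  have ha2 : a ^ 2 = 1 := by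
    have hc := (hdis 3 (by decide) (by decide)).commute
    rw [ha, hc.mul_pow, sq, sq, swap_mul_self, swap_mul_self, one_mul]
  have hb2 : b ^ 2 = 1 := by
    have hc := (hdis 4 (by decide) (by decide)).commute
    rw [hb, hc.mul_pow, sq, sq, swap_mul_self, swap_mul_self, one_mul]
  have hasign : sign a = 1 := by
    rw [ha, Perm.sign_mul, sign_swap (hne 0 1 (by decide)), sign_swap (hne 2 3 (by decide))]
    rfl
  have hab : orderOf (a * b) = 3 := by
    have h1 : a * b = swap (i 2) (i 3) * swap (i 2) (i 4) := by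
      have hc : swap (i 0) (i 1) * swap (i 2) (i 3) = swap (i 2) (i 3) * swap (i 0) (i 1) :=
        (hdis 3 (by decide) (by decide)).commute
      rw [ha, hb, hc, mul_assoc, ← mul_assoc (swap (i 0) (i 1)), swap_mul_self, one_mul]
    rw [h1]
    exact (isThreeCycle_swap_mul_swap_same (hne 2 3 (by decide)) (hne 2 4 (by decide))
      (hne 3 4 (by decide))).orderOf
  obtain ⟨P, haP⟩ := exists_sylow a ha2
  obtain ⟨P', hbP'⟩ := exists_sylow b hb2
  -- an odd element of `P`
  obtain ⟨τ, hτP, hτ⟩ : ∃ τ ∈ P, sign τ = -1 := by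
    obtain ⟨Q, hQ⟩ := exists_sylow (swap (i 0) (i 1)) (by rw [sq, swap_mul_self])
    obtain ⟨g, hg⟩ := MulAction.exists_smul_eq (Perm (Fin n)) P Q
    rw [← hg] at hQ
    have h1 : g⁻¹ * swap (i 0) (i 1) * g ∈ P := by
      have h2 : swap (i 0) (i 1) ∈ (g • P : Sylow 2 (Perm (Fin n))).toSubgroup := hQ
      rw [Sylow.coe_subgroup_smul, Subgroup.mem_pointwise_smul_iff_inv_smul_mem] at h2
      have h3 : g⁻¹ * swap (i 0) (i 1) * g ∈ P.toSubgroup := by
        simpa [MulAut.smul_def] using h2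
      exact h3
    refine ⟨_, h1, ?_⟩
    rw [Perm.sign_mul, Perm.sign_mul, sign_swap (hne 0 1 (by decide)), Perm.sign_inv]
    rcases Int.units_eq_one_or (sign g) with h | h <;> rw [h] <;> rfl
  obtain ⟨h, hh⟩ := MulAction.exists_smul_eq (Perm (Fin n)) P P'
  have hP' : ∀ x, h⁻¹ * x * h ∈ P → x ∈ P' := by
    intro x hx
    rw [← hh]
    show x ∈ (h • P : Sylow 2 (Perm (Fin n))).toSubgroup
    rw [Sylow.coe_subgroup_smul, Subgroup.mem_pointwise_smul_iff_inv_smul_mem]
    have hx' : h⁻¹ * x * h ∈ P.toSubgroup := hx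
    simpa [MulAut.smul_def] using hx'
  -- the family
  let F : Finset (Perm (Fin n)) := univ.filter
    (fun x => (sign x = 1 ∧ x ∈ P) ∨ (sign x = -1 ∧ τ⁻¹ * x ∈ P'))
  have hFmem : ∀ x, x ∈ F ↔ (sign x = 1 ∧ x ∈ P) ∨ (sign x = -1 ∧ τ⁻¹ * x ∈ P') := by
    intro x
    simp [F]
  have hF : EvenCycleIntersecting F := by
    intro σ hσ π hπ hne
    apply exists_even_of_even_order
    rw [hFmem] at hσ hπ
    have hne1 : σ * π⁻¹ ≠ 1 := fun h => hne (mul_inv_eq_one.1 h)
    rcases hσ with ⟨hσ1, hσ2⟩ | ⟨hσ1, hσ2⟩ <;> rcases hπ with ⟨hπ1, hπ2⟩ | ⟨hπ1, hπ2⟩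
    · exact even_order_of_mem P _ (P.mul_mem hσ2 (P.inv_mem hπ2)) hne1
    · apply even_order_of_sign
      rw [Perm.sign_mul, Perm.sign_inv, hσ1, hπ1]
      rfl
    · apply even_order_of_sign
      rw [Perm.sign_mul, Perm.sign_inv, hσ1, hπ1]
      rfl
    · have h1 : (τ⁻¹ * σ) * (τ⁻¹ * π)⁻¹ ∈ P' := P'.mul_mem hσ2 (P'.inv_mem hπ2)
      have h2 : (τ⁻¹ * σ) * (τ⁻¹ * π)⁻¹ = τ⁻¹ * (σ * π⁻¹) * τ := by group
      rw [h2] at h1
      have h3 : τ⁻¹ * (σ * π⁻¹) * τ ≠ 1 := by
        intro h4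
        apply hne1
        have : σ * π⁻¹ = τ * (τ⁻¹ * (σ * π⁻¹) * τ) * τ⁻¹ := by group
        rw [this, h4]
        group
      have h4 := even_order_of_mem P' _ h1 h3
      have h5 : orderOf (τ⁻¹ * (σ * π⁻¹) * τ) = orderOf (σ * π⁻¹) := by
        have : τ⁻¹ * (σ * π⁻¹) * τ = MulAut.conj τ⁻¹ (σ * π⁻¹) := by
          simp
        rw [this]
        exact MulEquiv.orderOf_eq (MulAut.conj τ⁻¹) _
      rwa [h5] at h4
  -- its size is at least `|P|`
  have hcard : Nat.card P ≤ #F := by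
    have h1 : ∀ x : P, (if sign x.1 = 1 then x.1 else τ * h * τ⁻¹ * x.1 * h⁻¹) ∈ F := by
      intro x
      rw [hFmem]
      split_ifs with h1
      · exact Or.inl ⟨h1, x.2⟩
      · right
        have h2 : sign x.1 = -1 := (Int.units_eq_one_or _).resolve_left h1
        constructor
        · simp only [Perm.sign_mul, Perm.sign_inv, h2, hτ]
          rcases Int.units_eq_one_or (sign h) with h3 | h3 <;> rw [h3] <;> rfl
        · apply hP'
          have : h⁻¹ * (τ⁻¹ * (τ * h * τ⁻¹ * x.1 * h⁻¹)) * h = τ⁻¹ * x.1 := by group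
          rw [this]
          exact P.mul_mem (P.inv_mem hτP) x.2
    have h2 : Function.Injective (fun x : P =>
        (⟨(if sign x.1 = 1 then x.1 else τ * h * τ⁻¹ * x.1 * h⁻¹), h1 x⟩ : F)) := by
      intro x y hxy
      have hxy' : (if sign x.1 = 1 then x.1 else τ * h * τ⁻¹ * x.1 * h⁻¹) =
          (if sign y.1 = 1 then y.1 else τ * h * τ⁻¹ * y.1 * h⁻¹) := congrArg Subtype.val hxy
      have hs : ∀ z : Perm (Fin n), sign z = -1 → sign (τ * h * τ⁻¹ * z * h⁻¹) = -1 := by
        intro z hz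
        simp only [Perm.sign_mul, Perm.sign_inv, hz, hτ]
        rcases Int.units_eq_one_or (sign h) with h3 | h3 <;> rw [h3] <;> rfl
      apply Subtype.ext
      split_ifs at hxy' with h3 h4 h4
      · exact hxy'
      · exfalso
        have h5 := hs y.1 ((Int.units_eq_one_or _).resolve_left h4)
        rw [← hxy', h3] at h5
        exact absurd h5 (by decide)
      · exfalso
        have h5 := hs x.1 ((Int.units_eq_one_or _).resolve_left h3)
        rw [hxy', h4] at h5
        exact absurd h5 (by decide)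
      · have h6 := mul_right_cancel hxy'
        exact mul_left_cancel h6
    have h3 := Nat.card_le_card_of_injective _ h2
    rwa [Nat.card_eq_fintype_card (α := F), Fintype.card_coe] at h3
  -- an extremal family
  obtain ⟨G, hG, hmax⟩ := exists_max_image
    (univ.filter (fun G : Finset (Perm (Fin n)) => EvenCycleIntersecting G)) card
    ⟨F, by simp [hF]⟩
  have hG1 : EvenCycleIntersecting G := (mem_filter.1 hG).2
  have hG2 : Extremal G := ⟨hG1, fun G' hG' => hmax G' (mem_filter.2 ⟨mem_univ _, hG'⟩)⟩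
  by_cases hc : #G = #F
  · refine ⟨F, ⟨hF, fun G' hG' => hc ▸ hG2.2 G' hG'⟩, ?_⟩
    intro Q σ π hFQ
    have hmem : ∀ x, x ∈ F ↔ ∃ g ∈ Q, x = σ * g * π := by
      intro x
      rw [← mem_coe, hFQ]
      rfl
    obtain ⟨g, hgQ, hg⟩ := (hmem 1).1 ((hFmem 1).2 (Or.inl ⟨Perm.sign_one, P.one_mem⟩))
    have hπ : π = g⁻¹ * σ⁻¹ := by
      have h1 : π = (σ * g)⁻¹ * (σ * g * π) := by group
      rw [h1, ← hg]
      group
    have hτF : τ ∈ F := (hFmem τ).2 (Or.inr ⟨hτ, by rw [inv_mul_cancel]; exact P'.one_mem⟩)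
    have haF : a ∈ F := (hFmem a).2 (Or.inl ⟨hasign, haP⟩)
    obtain ⟨g1, hg1, e1⟩ := (hmem τ).1 hτF
    obtain ⟨g2, hg2, e2⟩ := (hmem a).1 haF
    have hprod : τ * a ∈ F := by
      rw [hmem]
      refine ⟨g1 * g⁻¹ * g2, Q.mul_mem (Q.mul_mem hg1 (Q.inv_mem hgQ)) hg2, ?_⟩
      rw [e1, e2, hπ]
      group
    rw [hFmem] at hprod
    have haP' : a ∈ P' := by
      rcases hprod with ⟨h1, -⟩ | ⟨-, h1⟩
      · exfalso
        rw [Perm.sign_mul, hτ, hasign] at h1
        exact absurd h1 (by decide)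
      · rwa [inv_mul_cancel_left] at h1
    have h1 := even_order_of_mem P' (a * b) (P'.mul_mem haP' hbP') (by
      intro h1
      rw [h1, orderOf_one] at hab
      omega)
    rw [hab] at h1
    exact absurd h1 (by decide)
  · refine ⟨G, hG2, ?_⟩
    intro Q σ π hGQ
    have h1 : #F < #G := lt_of_le_of_ne (hG2.2 F hF) (Ne.symm hc)
    have h2 : #G ≤ Nat.card Q := by
      have h3 : (G : Set (Perm (Fin n))) ⊆ (fun g : Q => σ * g.1 * π) '' Set.univ := by
        rw [hGQ]
        rintro x ⟨g, hg, rfl⟩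
        exact ⟨⟨g, hg⟩, Set.mem_univ _, rfl⟩
      have h4 := Set.ncard_le_ncard h3 (Set.toFinite _)
      rw [Set.ncard_coe_finset] at h4
      refine h4.trans ((Set.ncard_image_le (Set.toFinite _)).trans ?_)
      rw [Set.ncard_univ]
      exact le_rfl
    have h3 : Nat.card Q = Nat.card P := Nat.card_congr (Sylow.equiv Q P).toEquiv
    omega

end Pool.Agent.Results.MP_acd7ab_co.NotOnlyTranslates
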